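import Mathlib

/-!
# MP_754066_an: complex interpolation of Lipschitz operators under Gateaux differentiability

A counterexample with `θ = 1/2`: `A₀ = ℓ^∞₂`, `A₁ = ℓ²₂`, `B₀ = ℓ¹₂`, `B₁ = √2 · ℓ²₂` (complex
spaces of dimension two) and the bounded real-linear map `U x = ½ S (Re x)` with
`S = ((1, 1), (1, -1))`.
-/

open Complex Filter Topology
open Complex.HadamardThreeLines
open scoped ENNReal

namespace Pool.Agent.Results.MP_754066_an.RealLinearCounterexample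

section definitions

variable {A₀ A₁ B₀ B₁ : Type*} [NormedAddCommGroup A₀] [NormedSpace ℂ A₀]
  [NormedAddCommGroup A₁] [NormedSpace ℂ A₁] [NormedAddCommGroup B₀] [NormedSpace ℂ B₀]
  [NormedAddCommGroup B₁] [NormedSpace ℂ B₁]

/-- The functions of Calderon's space for the couple `A₁ ⊂ A₀`, the inclusion being the injective
continuous linear map `j`: `F` is continuous and bounded on the closed strip `0 ≤ Re z ≤ 1` with
values in `A₀` (which is `A₀ + A₁`, with an equivalent norm), analytic in the open strip;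
`t ↦ F (it)` is continuous into `A₀` and tends to `0` as `|t| → ∞`, and `t ↦ F (1 + it)` is a
continuous function `G` into `A₁` that tends to `0` as `|t| → ∞`. -/
structure Admissible (j : A₁ →L[ℂ] A₀) (F : ℂ → A₀) (G : ℝ → A₁) : Prop where
  cont : ContinuousOn F (verticalClosedStrip 0 1)
  holo : DifferentiableOn ℂ F (verticalStrip 0 1)
  bdd : ∃ C, ∀ z ∈ verticalClosedStrip 0 1, ‖F z‖ ≤ C
  left_zero : Tendsto (fun t : ℝ => F (t * I)) (cocompact ℝ) (𝓝 0)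
  right_eq : ∀ t : ℝ, j (G t) = F (1 + t * I)
  right_cont : Continuous G
  right_zero : Tendsto G (cocompact ℝ) (𝓝 0)

/-- The norm of the complex interpolation space `[A₀, A₁]_θ`, with value `∞` exactly for the
elements of `A₀` that are not in `[A₀, A₁]_θ`: the infimum, over the admissible `F` with
`F(θ) = a`, of `max (sup_t ‖F(it)‖_{A₀}) (sup_t ‖F(1 + it)‖_{A₁})`. -/
noncomputable def interpNorm (j : A₁ →L[ℂ] A₀) (θ : ℝ) (a : A₀) : ℝ≥0∞ :=
  ⨅ (F : ℂ → A₀) (G : ℝ → A₁) (_ : Admissible j F G) (_ : F (θ : ℂ) = a),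
    max (⨆ t : ℝ, ‖F (t * I)‖ₑ) (⨆ t : ℝ, ‖G t‖ₑ)

/-- Conditions 1-3 of the problem on the map `U : A₀ → B₀` with constants `M₀`, `M₁`. -/
structure Conditions (jA : A₁ →L[ℂ] A₀) (jB : B₁ →L[ℂ] B₀) (U : A₀ → B₀) (M₀ M₁ : ℝ) : Prop where
  lip : ∀ a b : A₀, ‖U a - U b‖ ≤ M₀ * ‖a - b‖
  bound : ∀ a : A₁, ∃ b : B₁, jB b = U (jA a) ∧ ‖b‖ ≤ M₁ * ‖a‖
  gateaux : ∀ a : A₀, ∃ L : A₀ → B₀, (∀ x y, L (x + y) = L x + L y) ∧
    (∀ (r : ℝ) x, L ((r : ℂ) • x) = (r : ℂ) • L x) ∧ (∃ C : ℝ, ∀ x, ‖L x‖ ≤ C * ‖x‖) ∧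
    ∀ h, Tendsto (fun t : ℝ => ((t : ℂ)⁻¹) • (U (a + (t : ℂ) • h) - U a)) (𝓝[≠] 0) (𝓝 (L h))

end definitions

/-- `ℂ²` with the Euclidean norm -/
abbrev E2 := EuclideanSpace ℂ (Fin 2)
/-- `ℂ²` with the sum norm -/
abbrev L1 := PiLp 1 (fun _ : Fin 2 => ℂ)

/-- the inclusion of `A₁ = ℓ²₂` into `A₀ = ℓ^∞₂` -/
noncomputable def jA : E2 →L[ℂ] (Fin 2 → ℂ) :=
  LinearMap.toContinuousLinearMap
    { toFun := fun x i => x i
      map_add' := fun _ _ => rfl
      map_smul' := fun _ _ => rfl }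

/-- the inclusion of `B₁` into `B₀ = ℓ¹₂`; the factor `1/√2` realises the norm `√2 ‖·‖₂` on
`B₁ = ℂ²` -/
noncomputable def jB : E2 →L[ℂ] L1 :=
  LinearMap.toContinuousLinearMap
    { toFun := fun x => WithLp.toLp 1 fun i => ((√2 : ℝ) : ℂ)⁻¹ * x i
      map_add' := fun x y => by
        ext i
        simp [mul_add]
      map_smul' := fun c x => by
        ext i
        simp
        ring }

/-- the real-linear map `U x = ½ S (Re x)` -/
noncomputable def U (x : Fin 2 → ℂ) : L1 :=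
  WithLp.toLp 1 ![((((x 0).re + (x 1).re) / 2 : ℝ) : ℂ), ((((x 0).re - (x 1).re) / 2 : ℝ) : ℂ)]

lemma jA_apply (x : E2) (i : Fin 2) : jA x i = x i := rfl
lemma jB_apply (x : E2) (i : Fin 2) : jB x i = ((√2 : ℝ) : ℂ)⁻¹ * x i := rfl
lemma U_0 (x : Fin 2 → ℂ) : U x 0 = ((((x 0).re + (x 1).re) / 2 : ℝ) : ℂ) := rfl
lemma U_1 (x : Fin 2 → ℂ) : U x 1 = ((((x 0).re - (x 1).re) / 2 : ℝ) : ℂ) := rfl

lemma jA_injective : Function.Injective jA := by
  intro x y h
  ext i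
  have := congrFun h i
  exact this

lemma jB_injective : Function.Injective jB := by
  intro x y h
  ext i
  have h1 : jB x i = jB y i := by rw [h]
  rw [jB_apply, jB_apply] at h1
  have h2 : ((√2 : ℝ) : ℂ)⁻¹ ≠ 0 := by
    rw [Ne, inv_eq_zero, ofReal_eq_zero]
    positivity
  exact mul_left_cancel₀ h2 h1

lemma norm_L1 (x : L1) : ‖x‖ = ‖x 0‖ + ‖x 1‖ := by
  rw [PiLp.norm_eq_of_L1, Fin.sum_univ_two]

lemma ext_L1 {x y : L1} (h0 : x 0 = y 0) (h1 : x 1 = y 1) : x = y := by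
  ext i
  fin_cases i
  · exact h0
  · exact h1

lemma U_add (x y : Fin 2 → ℂ) : U (x + y) = U x + U y := by
  refine ext_L1 ?_ ?_
  · rw [PiLp.add_apply, U_0, U_0, U_0]
    simp only [Pi.add_apply, add_re]
    push_cast
    ring
  · rw [PiLp.add_apply, U_1, U_1, U_1]
    simp only [Pi.add_apply, add_re]
    push_cast
    ring

lemma U_smul (r : ℝ) (x : Fin 2 → ℂ) : U ((r : ℂ) • x) = (r : ℂ) • U x := by
  refine ext_L1 ?_ ?_
  · rw [PiLp.smul_apply, U_0, U_0]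
    simp only [Pi.smul_apply, smul_eq_mul, re_ofReal_mul]
    push_cast
    ring
  · rw [PiLp.smul_apply, U_1, U_1]
    simp only [Pi.smul_apply, smul_eq_mul, re_ofReal_mul]
    push_cast
    ring

lemma U_norm_le (x : Fin 2 → ℂ) : ‖U x‖ ≤ 1 * ‖x‖ := by
  rw [norm_L1, U_0, U_1, norm_real, norm_real, one_mul]
  have h0 : |(x 0).re| ≤ ‖x‖ := (abs_re_le_norm _).trans (norm_le_pi_norm x 0)
  have h1 : |(x 1).re| ≤ ‖x‖ := (abs_re_le_norm _).trans (norm_le_pi_norm x 1)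
  rw [Real.norm_eq_abs, Real.norm_eq_abs]
  have e0 := abs_le.mp h0
  have e1 := abs_le.mp h1
  rcases abs_cases (((x 0).re + (x 1).re) / 2) with ⟨h, -⟩ | ⟨h, -⟩ <;>
    rcases abs_cases (((x 0).re - (x 1).re) / 2) with ⟨h', -⟩ | ⟨h', -⟩ <;>
    rw [h, h'] <;> linarith [e0.1, e0.2, e1.1, e1.2]

lemma U_sub (x y : Fin 2 → ℂ) : U (x - y) = U x - U y := by
  have h := U_add (x - y) y
  rw [sub_add_cancel] at h
  rw [h, add_sub_cancel_right]

lemma conditions : Conditions jA jB U 1 1 where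
  lip a b := by
    rw [← U_sub]
    exact U_norm_le _
  bound a := by
    refine ⟨WithLp.toLp 2 fun i => ((√2 : ℝ) : ℂ) * U (jA a) i, ?_, ?_⟩
    · ext i
      rw [jB_apply]
      have h2 : ((√2 : ℝ) : ℂ) ≠ 0 := by
        rw [Ne, ofReal_eq_zero]
        positivity
      show ((√2 : ℝ) : ℂ)⁻¹ * (((√2 : ℝ) : ℂ) * U (jA a) i) = U (jA a) i
      rw [inv_mul_cancel_left₀ h2]
    · rw [one_mul]
      refine le_of_sq_le_sq ?_ (norm_nonneg _)
      rw [EuclideanSpace.norm_sq_eq, EuclideanSpace.norm_sq_eq, Fin.sum_univ_two, Fin.sum_univ_two]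
      show ‖((√2 : ℝ) : ℂ) * U (jA a) 0‖ ^ 2 + ‖((√2 : ℝ) : ℂ) * U (jA a) 1‖ ^ 2 ≤ _
      rw [norm_mul, norm_mul, mul_pow, mul_pow, U_0, U_1, norm_real, norm_real, norm_real,
        Real.norm_eq_abs, Real.norm_eq_abs, Real.norm_eq_abs, sq_abs, sq_abs, sq_abs,
        Real.sq_sqrt (by norm_num), jA_apply, jA_apply]
      have h0 : (a 0).re ^ 2 ≤ ‖a 0‖ ^ 2 := by
        rw [← sq_abs (a 0).re]
        exact pow_le_pow_left₀ (abs_nonneg _) (abs_re_le_norm _) 2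
      have h1 : (a 1).re ^ 2 ≤ ‖a 1‖ ^ 2 := by
        rw [← sq_abs (a 1).re]
        exact pow_le_pow_left₀ (abs_nonneg _) (abs_re_le_norm _) 2
      nlinarith
  gateaux a := by
    refine ⟨U, U_add, U_smul, ⟨1, U_norm_le⟩, fun h => ?_⟩
    refine tendsto_const_nhds.congr' ?_
    filter_upwards [self_mem_nhdsWithin] with t ht
    have ht' : (t : ℂ) ≠ 0 := by
      rw [Ne, ofReal_eq_zero]
      exact ht
    rw [U_add, add_sub_cancel_left, U_smul, smul_smul, inv_mul_cancel₀ ht', one_smul]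

/-- the point `a = (99/100, 2/5)` -/
noncomputable def aPt : Fin 2 → ℂ := ![((99 / 100 : ℝ) : ℂ), ((2 / 5 : ℝ) : ℂ)]

/-- the exponents -/
noncomputable def r : Fin 2 → ℝ := ![99 / 100, 2 / 5]

lemma r_0 : r 0 = 99 / 100 := rfl
lemma r_1 : r 1 = 2 / 5 := rfl

lemma r_pos (i : Fin 2) : 0 < r i := by
  fin_cases i
  · show 0 < r 0
    norm_num [r_0]
  · show 0 < r 1
    norm_num [r_1]

lemma r_le (i : Fin 2) : r i ≤ 1 := by
  fin_cases i
  · show r 0 ≤ 1
    norm_num [r_0]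
  · show r 1 ≤ 1
    norm_num [r_1]

lemma aPt_eq (i : Fin 2) : aPt i = ((r i : ℝ) : ℂ) := by
  fin_cases i <;> rfl

/-- the extremal function for `a` -/
noncomputable def FA (z : ℂ) : Fin 2 → ℂ := fun k =>
  cexp (2 * z * Real.log (r k) + (1 / 200 : ℝ) * (z ^ 2 - 1 / 4))

lemma norm_FA (x y : ℝ) (k : Fin 2) : ‖FA (x + y * I) k‖ =
    Real.exp (2 * x * Real.log (r k) + (1 / 200) * (x ^ 2 - y ^ 2 - 1 / 4)) := by
  unfold FA
  rw [norm_exp]
  congr 1
  have h1 : (2 * ((x : ℂ) + y * I) * (Real.log (r k) : ℝ)).re = 2 * x * Real.log (r k) := by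
    simp
  have h2 : (((1 / 200 : ℝ) : ℂ) * (((x : ℂ) + y * I) ^ 2 - 1 / 4)).re =
      (1 / 200) * (x ^ 2 - y ^ 2 - 1 / 4) := by
    rw [re_ofReal_mul, pow_two]
    simp
    ring
  rw [add_re, h1, h2]

lemma log_nonpos (k : Fin 2) : Real.log (r k) ≤ 0 := Real.log_nonpos (r_pos k).le (r_le k)

lemma continuous_FA : Continuous FA := by
  refine continuous_pi fun k => ?_
  unfold FA
  fun_prop

lemma differentiable_FA : Differentiable ℂ FA := by
  refine differentiable_pi.mpr fun k => ?_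
  unfold FA
  fun_prop

/-- boundary function -/
noncomputable def GA (t : ℝ) : E2 := WithLp.toLp 2 (FA (1 + t * I))

lemma continuous_GA : Continuous GA := by
  have h1 : Continuous fun t : ℝ => FA (1 + t * I) := continuous_FA.comp (by fun_prop)
  exact (PiLp.continuous_toLp 2 _).comp h1

lemma tendsto_gauss (c d : ℝ) : Tendsto (fun t : ℝ => Real.exp (c + (1 / 200) * (d - t ^ 2 - 1 / 4)))
    (cocompact ℝ) (𝓝 0) := by
  refine Real.tendsto_exp_atBot.comp ?_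
  have h1 : Tendsto (fun t : ℝ => ‖t‖ ^ 2) (cocompact ℝ) atTop :=
    (tendsto_pow_atTop two_ne_zero).comp tendsto_norm_cocompact_atTop
  have h2 : Tendsto (fun t : ℝ => (-(1 / 200 : ℝ)) * ‖t‖ ^ 2 + (c + (1 / 200) * (d - 1 / 4)))
      (cocompact ℝ) atBot :=
    tendsto_atBot_add_const_right _ _ (h1.const_mul_atTop_of_neg (by norm_num))
  refine h2.congr fun t => ?_
  rw [Real.norm_eq_abs, sq_abs]
  ring

lemma tendsto_FA (x : ℝ) : Tendsto (fun t : ℝ => FA (x + t * I)) (cocompact ℝ) (𝓝 0) := by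
  rw [tendsto_pi_nhds]
  intro k
  rw [Pi.zero_apply, tendsto_zero_iff_norm_tendsto_zero]
  refine (tendsto_gauss (2 * x * Real.log (r k)) (x ^ 2)).congr fun t => ?_
  rw [norm_FA]

lemma admissible_A : Admissible jA FA GA where
  cont := continuous_FA.continuousOn
  holo := differentiable_FA.differentiableOn
  bdd := by
    refine ⟨Real.exp (1 / 200), fun z hz => ?_⟩
    rw [pi_norm_le_iff_of_nonneg (Real.exp_pos _).le]
    intro k
    rw [← re_add_im z, norm_FA, Real.exp_le_exp]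
    have hz1 : 0 ≤ z.re ∧ z.re ≤ 1 := hz
    have h1 : 2 * z.re * Real.log (r k) ≤ 0 :=
      mul_nonpos_of_nonneg_of_nonpos (by linarith [hz1.1]) (log_nonpos k)
    have h2 : z.re ^ 2 ≤ 1 := by nlinarith [hz1.1, hz1.2]
    nlinarith [sq_nonneg z.im]
  left_zero := by
    have h := tendsto_FA 0
    simpa using h
  right_eq t := rfl
  right_cont := continuous_GA
  right_zero := by
    have h := tendsto_FA 1
    have h1 : Tendsto (fun t : ℝ => (WithLp.toLp 2 (FA ((1 : ℝ) + t * I)) : E2)) (cocompact ℝ)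
        (𝓝 (WithLp.toLp 2 0)) := ((PiLp.continuous_toLp 2 _).tendsto 0).comp h
    have h2 : (fun t : ℝ => (WithLp.toLp 2 (FA ((1 : ℝ) + t * I)) : E2)) = GA := by
      funext t
      rw [GA, ofReal_one]
    rw [h2] at h1
    exact h1

lemma FA_half : FA ((1 / 2 : ℝ) : ℂ) = aPt := by
  funext k
  rw [aPt_eq]
  unfold FA
  have h : 2 * (((1 / 2 : ℝ) : ℂ)) * (Real.log (r k) : ℝ) +
      ((1 / 200 : ℝ) : ℂ) * ((((1 / 2 : ℝ) : ℂ)) ^ 2 - 1 / 4) = ((Real.log (r k) : ℝ) : ℂ) := by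
    push_cast
    ring
  rw [h, ← ofReal_exp, Real.exp_log (r_pos k)]

lemma exp_bound : Real.exp (3 / 400) ≤ 400 / 397 := by
  have h := Real.add_one_le_exp (-(3 / 400 : ℝ))
  rw [Real.exp_neg] at h
  have hpos := Real.exp_pos (3 / 400 : ℝ)
  rw [le_inv_comm₀ (by norm_num) hpos] at h
  norm_num at h ⊢
  linarith

lemma norm_GA_le (t : ℝ) : ‖GA t‖ ≤ 1 := by
  refine le_of_sq_le_sq ?_ zero_le_one
  rw [EuclideanSpace.norm_sq_eq, Fin.sum_univ_two]
  have key : ∀ k : Fin 2, ‖GA t k‖ ^ 2 ≤ r k ^ 4 * (400 / 397) := by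
    intro k
    show ‖FA (1 + t * I) k‖ ^ 2 ≤ _
    have h := norm_FA 1 t k
    rw [ofReal_one] at h
    rw [h, ← Real.exp_nat_mul]
    have h4 : r k ^ 4 = Real.exp (4 * Real.log (r k)) := by
      rw [show (4 : ℝ) = ((4 : ℕ) : ℝ) by norm_num, Real.exp_nat_mul, Real.exp_log (r_pos k)]
    calc Real.exp (((2 : ℕ) : ℝ) * (2 * 1 * Real.log (r k) + 1 / 200 * (1 ^ 2 - t ^ 2 - 1 / 4)))
        ≤ Real.exp (4 * Real.log (r k) + 3 / 400) := by
          rw [Real.exp_le_exp]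
          push_cast
          nlinarith [sq_nonneg t]
      _ = r k ^ 4 * Real.exp (3 / 400) := by rw [Real.exp_add, h4]
      _ ≤ _ := mul_le_mul_of_nonneg_left exp_bound (by positivity)
  have h0 := key 0
  have h1 := key 1
  rw [r_0] at h0
  rw [r_1] at h1
  norm_num at h0 h1 ⊢
  linarith

lemma norm_FA_le (t : ℝ) : ‖FA (t * I)‖ ≤ 1 := by
  rw [pi_norm_le_iff_of_nonneg zero_le_one]
  intro k
  have h := norm_FA 0 t k
  rw [ofReal_zero, zero_add] at h
  rw [h, Real.exp_le_one_iff]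
  nlinarith [sq_nonneg t]

lemma interp_A : interpNorm jA (1 / 2) aPt ≤ 1 := by
  unfold interpNorm
  refine iInf_le_of_le FA (iInf_le_of_le GA (iInf_le_of_le admissible_A
    (iInf_le_of_le FA_half (max_le (iSup_le fun t => ?_) (iSup_le fun t => ?_)))))
  · rw [← ofReal_norm, ENNReal.ofReal_le_one]
    exact norm_FA_le t
  · rw [← ofReal_norm, ENNReal.ofReal_le_one]
    exact norm_GA_le t

/-- the weights of the dual function -/
noncomputable def u : Fin 2 → ℝ := ![15 / 17, 8 / 17]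
lemma u_0 : u 0 = 15 / 17 := rfl
lemma u_1 : u 1 = 8 / 17 := rfl

/-- the dual function -/
noncomputable def hD (k : Fin 2) (z : ℂ) : ℂ := cexp (z * ((Real.log 2 / 2 + Real.log (u k) : ℝ) : ℂ))

lemma norm_hD (k : Fin 2) (z : ℂ) :
    ‖hD k z‖ = Real.exp (z.re * (Real.log 2 / 2 + Real.log (u k))) := by
  unfold hD
  rw [norm_exp, re_mul_ofReal]

lemma u_pos (k : Fin 2) : 0 < u k := by
  fin_cases k
  · show 0 < u 0
    norm_num [u_0]
  · show 0 < u 1
    norm_num [u_1]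

lemma norm_hD_one (k : Fin 2) {z : ℂ} (hz : z.re = 1) : ‖hD k z‖ = √2 * u k := by
  rw [norm_hD, hz, one_mul, Real.exp_add, Real.exp_log (u_pos k)]
  congr 1
  rw [Real.sqrt_eq_rpow, Real.rpow_def_of_pos (by norm_num)]
  congr 1
  ring

lemma norm_hD_zero (k : Fin 2) {z : ℂ} (hz : z.re = 0) : ‖hD k z‖ = 1 := by
  rw [norm_hD, hz, zero_mul, Real.exp_zero]

lemma hD_half (k : Fin 2) : hD k ((1 / 2 : ℝ) : ℂ) =
    ((Real.exp (1 / 2 * (Real.log 2 / 2 + Real.log (u k))) : ℝ) : ℂ) := by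
  unfold hD
  rw [ofReal_exp]
  congr 1
  push_cast
  ring

lemma hD_half_pow (k : Fin 2) :
    Real.exp (1 / 2 * (Real.log 2 / 2 + Real.log (u k))) ^ 4 = 2 * u k ^ 2 := by
  rw [← Real.exp_nat_mul]
  have : ((4 : ℕ) : ℝ) * (1 / 2 * (Real.log 2 / 2 + Real.log (u k))) =
      Real.log 2 + ((2 : ℕ) : ℝ) * Real.log (u k) := by
    push_cast; ring
  rw [this, Real.exp_add, Real.exp_log (by norm_num), Real.exp_nat_mul, Real.exp_log (u_pos k)]

lemma lower {F : ℂ → L1} {G : ℝ → E2} (hFG : Admissible jB F G)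
    (hF : F ((1 / 2 : ℝ) : ℂ) = U aPt) {m : ℝ} (h0 : ∀ t : ℝ, ‖F (t * I)‖ ≤ m)
    (h1 : ∀ t : ℝ, ‖G t‖ ≤ m) : 101 / 100 ≤ m := by
  have hm : 0 ≤ m := (norm_nonneg _).trans (h1 0)
  set g : ℂ → ℂ := fun z => F z 0 * hD 0 z + F z 1 * hD 1 z with hg
  have hDdiff : ∀ k, Differentiable ℂ (hD k) := by
    intro k; unfold hD; fun_prop
  have hFk : ∀ k : Fin 2, ContinuousOn (fun z => F z k) (verticalClosedStrip 0 1) := fun k =>
    (PiLp.continuous_apply 1 _ k).comp_continuousOn hFG.cont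
  have hFd : ∀ k : Fin 2, DifferentiableOn ℂ (fun z => F z k) (verticalStrip 0 1) := fun k =>
    (PiLp.proj (𝕜 := ℂ) 1 (fun _ : Fin 2 => ℂ) k).differentiable.comp_differentiableOn hFG.holo
  have hd : DiffContOnCl ℂ g (verticalStrip 0 1) := by
    refine ⟨((hFd 0).mul (hDdiff 0).differentiableOn).add
      ((hFd 1).mul (hDdiff 1).differentiableOn), ?_⟩
    have hsub : closure (verticalStrip 0 1) ⊆ verticalClosedStrip 0 1 := by
      refine closure_minimal (fun z hz => ?_) (isClosed_Icc.preimage continuous_re)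
      exact ⟨hz.1.le, hz.2.le⟩
    exact (((hFk 0).mul (hDdiff 0).continuous.continuousOn).add
      ((hFk 1).mul (hDdiff 1).continuous.continuousOn)).mono hsub
  have hFkle : ∀ (k : Fin 2) z, ‖F z k‖ ≤ ‖F z‖ := by
    intro k z
    rw [norm_L1]
    have a0 := norm_nonneg (F z 0)
    have a1 := norm_nonneg (F z 1)
    fin_cases k
    · show ‖F z 0‖ ≤ _
      linarith
    · show ‖F z 1‖ ≤ _
      linarith
  have hB : BddAbove ((norm ∘ g) '' verticalClosedStrip 0 1) := by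
    obtain ⟨C, hC⟩ := hFG.bdd
    refine ⟨C * Real.exp |Real.log 2 / 2 + Real.log (u 0)| +
      C * Real.exp |Real.log 2 / 2 + Real.log (u 1)|, ?_⟩
    rintro _ ⟨z, hz, rfl⟩
    have hz1 : 0 ≤ z.re ∧ z.re ≤ 1 := hz
    have hb : ∀ k, ‖hD k z‖ ≤ Real.exp |Real.log 2 / 2 + Real.log (u k)| := by
      intro k
      rw [norm_hD, Real.exp_le_exp]
      calc z.re * (Real.log 2 / 2 + Real.log (u k))
          ≤ z.re * |Real.log 2 / 2 + Real.log (u k)| :=
            mul_le_mul_of_nonneg_left (le_abs_self _) hz1.1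
        _ ≤ 1 * |Real.log 2 / 2 + Real.log (u k)| :=
            mul_le_mul_of_nonneg_right hz1.2 (abs_nonneg _)
        _ = _ := one_mul _
    have hC0 : 0 ≤ C := (norm_nonneg _).trans (hC z hz)
    show ‖F z 0 * hD 0 z + F z 1 * hD 1 z‖ ≤ _
    refine (norm_add_le _ _).trans (add_le_add ?_ ?_)
    · rw [norm_mul]
      exact mul_le_mul ((hFkle 0 z).trans (hC z hz)) (hb 0) (norm_nonneg _) hC0
    · rw [norm_mul]
      exact mul_le_mul ((hFkle 1 z).trans (hC z hz)) (hb 1) (norm_nonneg _) hC0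
  have ha : ∀ z ∈ re ⁻¹' {(0 : ℝ)}, ‖g z‖ ≤ m := by
    intro z hz
    have hz0 : z.re = 0 := hz
    have hzI : z = z.im * I := by
      conv_lhs => rw [← re_add_im z, hz0, ofReal_zero, zero_add]
    calc ‖g z‖ ≤ ‖F z 0 * hD 0 z‖ + ‖F z 1 * hD 1 z‖ := norm_add_le _ _
      _ = ‖F z‖ := by rw [norm_mul, norm_mul, norm_hD_zero 0 hz0, norm_hD_zero 1 hz0, norm_L1,
          mul_one, mul_one]
      _ ≤ m := by
        rw [hzI]
        exact h0 _
  have hb : ∀ z ∈ re ⁻¹' {(1 : ℝ)}, ‖g z‖ ≤ m := by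
    intro z hz
    have hz0 : z.re = 1 := hz
    have hzI : z = 1 + z.im * I := by
      conv_lhs => rw [← re_add_im z, hz0, ofReal_one]
    have hFz : ∀ k : Fin 2, F z k = ((√2 : ℝ) : ℂ)⁻¹ * G z.im k := by
      intro k
      rw [hzI, ← hFG.right_eq, jB_apply]
      simp
    have hs : 0 < √2 := by positivity
    have hterm : ∀ k : Fin 2, ‖F z k * hD k z‖ = ‖G z.im k‖ * u k := by
      intro k
      rw [norm_mul, norm_hD_one k hz0, hFz k, norm_mul, norm_inv, norm_real,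
        Real.norm_of_nonneg hs.le]
      field_simp
    have hG := EuclideanSpace.norm_sq_eq (G z.im)
    rw [Fin.sum_univ_two] at hG
    have hsq : (‖G z.im 0‖ * u 0 + ‖G z.im 1‖ * u 1) ^ 2 ≤ ‖G z.im‖ ^ 2 := by
      rw [hG, u_0, u_1]
      nlinarith [sq_nonneg (‖G z.im 0‖ * (8 / 17) - ‖G z.im 1‖ * (15 / 17))]
    calc ‖g z‖ ≤ ‖F z 0 * hD 0 z‖ + ‖F z 1 * hD 1 z‖ := norm_add_le _ _
      _ = ‖G z.im 0‖ * u 0 + ‖G z.im 1‖ * u 1 := by rw [hterm, hterm]
      _ ≤ ‖G z.im‖ := le_of_sq_le_sq hsq (norm_nonneg _)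
      _ ≤ m := h1 _
  have hz : ((1 / 2 : ℝ) : ℂ) ∈ verticalClosedStrip 0 1 := by
    show ((1 / 2 : ℝ) : ℂ).re ∈ Set.Icc (0 : ℝ) 1
    rw [ofReal_re]
    norm_num
  have h3 := norm_le_interp_of_mem_verticalClosedStrip₀₁' g hz hd hB ha hb
  rw [ofReal_re] at h3
  have hmm : m ^ ((1 : ℝ) - 1 / 2) * m ^ (1 / 2 : ℝ) = m := by
    rw [← Real.rpow_add' hm (by norm_num)]
    norm_num
  rw [hmm] at h3
  set e0 := Real.exp (1 / 2 * (Real.log 2 / 2 + Real.log (u 0))) with he0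
  set e1 := Real.exp (1 / 2 * (Real.log 2 / 2 + Real.log (u 1))) with he1
  have hval : g ((1 / 2 : ℝ) : ℂ) = ((139 / 200 * e0 + 59 / 200 * e1 : ℝ) : ℂ) := by
    simp only [hg]
    rw [hF, U_0, U_1, hD_half, hD_half, aPt_eq, aPt_eq, ofReal_re, ofReal_re, r_0, r_1,
      ← he0, ← he1]
    push_cast
    norm_num
  have hp0 : e0 ^ 4 = 2 * u 0 ^ 2 := hD_half_pow 0
  have hp1 : e1 ^ 4 = 2 * u 1 ^ 2 := hD_half_pow 1
  have he0pos : 0 < e0 := Real.exp_pos _
  have he1pos : 0 < e1 := Real.exp_pos _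
  have hb0 : 111 / 100 ≤ e0 := by
    refine le_of_pow_le_pow_left₀ (n := 4) (by norm_num) he0pos.le ?_
    rw [hp0, u_0]
    norm_num
  have hb1 : 81 / 100 ≤ e1 := by
    refine le_of_pow_le_pow_left₀ (n := 4) (by norm_num) he1pos.le ?_
    rw [hp1, u_1]
    norm_num
  rw [hval, norm_real, Real.norm_of_nonneg (by positivity)] at h3
  linarith

lemma interp_B : ENNReal.ofReal (101 / 100) ≤ interpNorm jB (1 / 2) (U aPt) := by
  unfold interpNorm
  refine le_iInf fun F => le_iInf fun G => le_iInf fun hFG => le_iInf fun hF => ?_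
  set M := max (⨆ t : ℝ, ‖F (t * I)‖ₑ) (⨆ t : ℝ, ‖G t‖ₑ) with hM
  by_cases hMt : M = ∞
  · rw [hMt]
    exact le_top
  · have h0 : ∀ t : ℝ, ‖F (t * I)‖ ≤ M.toReal := by
      intro t
      have : ‖F (t * I)‖ₑ ≤ M := (le_iSup (fun t : ℝ => ‖F (t * I)‖ₑ) t).trans (le_max_left _ _)
      rw [← toReal_enorm]
      exact ENNReal.toReal_mono hMt this
    have h1 : ∀ t : ℝ, ‖G t‖ ≤ M.toReal := by
      intro t
      have : ‖G t‖ₑ ≤ M := (le_iSup (fun t : ℝ => ‖G t‖ₑ) t).trans (le_max_right _ _)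
      rw [← toReal_enorm]
      exact ENNReal.toReal_mono hMt this
    exact ENNReal.ofReal_le_of_le_toReal (lower hFG hF h0 h1)

/-- **Q1 of MP_754066_an is disproved.** There are (two-dimensional) complex Banach spaces
`A₁ ⊂ A₀`, `B₁ ⊂ B₀`, a parameter `θ ∈ (0,1)` and a map `U : A₀ → B₀` satisfying conditions 1-3
with constants `M₀`, `M₁` such that for some `a ∈ [A₀, A₁]_θ` one has
`‖U a‖_{[θ]} > max (M₀, M₁) ‖a‖_{[θ]}`. -/
theorem result :
    ∃ (jA : EuclideanSpace ℂ (Fin 2) →L[ℂ] (Fin 2 → ℂ))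
      (jB : EuclideanSpace ℂ (Fin 2) →L[ℂ] PiLp 1 (fun _ : Fin 2 => ℂ))
      (U : (Fin 2 → ℂ) → PiLp 1 (fun _ : Fin 2 => ℂ)) (M₀ M₁ θ : ℝ) (a : Fin 2 → ℂ),
      Function.Injective jA ∧ Function.Injective jB ∧ 0 < θ ∧ θ < 1 ∧
      Conditions jA jB U M₀ M₁ ∧ interpNorm jA θ a < ∞ ∧
      ENNReal.ofReal (max M₀ M₁) * interpNorm jA θ a < interpNorm jB θ (U a) := by
  refine ⟨jA, jB, U, 1, 1, 1 / 2, aPt, jA_injective, jB_injective, by norm_num, by norm_num,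
    conditions, lt_of_le_of_lt interp_A ENNReal.one_lt_top, ?_⟩
  rw [max_self, ENNReal.ofReal_one, one_mul]
  refine lt_of_le_of_lt interp_A (lt_of_lt_of_le ?_ interp_B)
  rw [← ENNReal.ofReal_one, ENNReal.ofReal_lt_ofReal_iff (by norm_num)]
  norm_num

end Pool.Agent.Results.MP_754066_an.RealLinearCounterexample
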